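import Pool.Agent.Helper32.OIP.Goals

/-!
# OIP-E3: simple properties of the conditional entropy
-/

namespace Pool.Agent.Helper77.OIP

open MeasureTheory Pool.Agent.Helper32.OIP Pool.Agent.Helper58.Orb

lemma isProb_pm (A : Type) {E : Type} [MeasurableSpace E] (ν : Measure E)
    [IsProbabilityMeasure ν] : IsProbabilityMeasure (pm A ν) := by
  unfold pm
  infer_instance

lemma measurable_glue_right {A E : Type} [MeasurableSpace E] (T : Set A) (z : A → E) :
    Measurable (fun w : A → E => glue T z w) := by
  refine measurable_pi_iff.2 fun a => ?_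
  unfold glue
  by_cases h : a ∈ T
  · simp only [h, if_true]
    exact measurable_const
  · simp only [h, if_false]
    exact measurable_pi_apply a

lemma measurable_glue_pair {A E : Type} [MeasurableSpace E] (T : Set A) :
    Measurable (fun p : (A → E) × (A → E) => glue T p.1 p.2) := by
  refine measurable_pi_iff.2 fun a => ?_
  unfold glue
  by_cases h : a ∈ T
  · simp only [h, if_true]
    exact (measurable_pi_apply a).comp measurable_fst
  · simp only [h, if_false]
    exact (measurable_pi_apply a).comp measurable_snd

lemma measurable_cp {A E M : Type} [MeasurableSpace E] (μ : Measure (A → E))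
    [IsProbabilityMeasure μ] (X : (A → E) → M) (hX : ∀ m, MeasurableSet {z | X z = m})
    (T : Set A) (m : M) : Measurable (fun z => cp μ X T z m) := by
  unfold cp
  have h : MeasurableSet {p : (A → E) × (A → E) | X (glue T p.1 p.2) = m} :=
    measurable_glue_pair T (hX m)
  exact (measurable_measure_prodMk_left h).ennreal_toReal

lemma sh_glue {A E : Type} [Group A] (g : A) (T : Set A) (z w : A → E) :
    sh g (glue T z w) = glue ((fun a => g * a) '' T) (sh g z) (sh g w) := by
  funext h
  unfold sh glue
  have hiff : h ∈ (fun a => g * a) '' T ↔ g⁻¹ * h ∈ T := by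
    constructor
    · rintro ⟨a, ha, rfl⟩
      simpa using ha
    · intro hh
      exact ⟨g⁻¹ * h, hh, by simp⟩
  by_cases hT : g⁻¹ * h ∈ T
  · rw [if_pos hT, if_pos (hiff.2 hT)]
  · rw [if_neg hT, if_neg (fun hh => hT (hiff.1 hh))]

theorem e3 : GoalE3 := by
  intro hMA1 _ A E M _ _ _ ν _ X hX
  have hp : IsProbabilityMeasure (pm A ν) := isProb_pm A ν
  refine ⟨?_, ?_, ?_, ?_⟩
  · unfold hc cp Ent
    have h : ∀ z w : A → E, glue (∅ : Set A) z w = w := by
      intro z w
      funext a
      simp [glue]
    simp only [h]
    simp
  · intro W T hW hWT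
    unfold hc
    have h : ∀ z : A → E, ∑ m, Real.negMulLog (cp (pm A ν) X T z m) = 0 := by
      intro z
      refine Finset.sum_eq_zero fun m _ => ?_
      unfold cp
      have hXz : ∀ w : A → E, X (glue T z w) = X z := by
        intro w
        apply hW
        intro a ha
        simp [glue, hWT ha]
      simp only [hXz]
      by_cases hm : X z = m
      · simp [hm]
      · simp [hm]
    simp only [h]
    simp
  · intro W T hW
    unfold hc cp
    have h : ∀ z w : A → E, X (glue T z w) = X (glue (T ∩ W) z w) := by
      intro z w
      apply hW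
      intro a ha
      unfold glue
      by_cases hT : a ∈ T
      · rw [if_pos hT, if_pos ⟨hT, ha⟩]
      · rw [if_neg hT, if_neg (fun hh => hT hh.1)]
    simp only [h]
  · intro g T
    have hsh : MeasurePreserving (sh g : (A → E) → (A → E)) (pm A ν) (pm A ν) :=
      hMA1.2.2 A E ν g
    set T' : Set A := (fun a => g * a) '' T with hT'
    have hcp : ∀ z m, cp (pm A ν) (fun z => X (sh g z)) T z m = cp (pm A ν) X T' (sh g z) m := by
      intro z m
      unfold cp
      have hmeas : MeasurableSet {w : A → E | X (glue T' (sh g z) w) = m} :=
        measurable_glue_right T' (sh g z) (hX m)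
      have hset : {w : A → E | X (sh g (glue T z w)) = m} =
          sh g ⁻¹' {w : A → E | X (glue T' (sh g z) w) = m} := by
        ext w
        show X (sh g (glue T z w)) = m ↔ X (glue T' (sh g z) (sh g w)) = m
        rw [sh_glue]
      rw [hset]
      exact hsh.measureReal_preimage hmeas.nullMeasurableSet
    unfold hc
    simp only [hcp]
    have hF : Measurable fun z : A → E => ∑ m, Real.negMulLog (cp (pm A ν) X T' z m) := by
      refine Finset.measurable_sum _ fun m _ => ?_
      exact Real.continuous_negMulLog.measurable.comp (measurable_cp (pm A ν) X hX T' m)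
    have h1 := integral_map (μ := pm A ν) hsh.measurable.aemeasurable
      (f := fun z : A → E => ∑ m, Real.negMulLog (cp (pm A ν) X T' z m))
      hF.aestronglyMeasurable
    rw [hsh.map_eq] at h1
    exact h1.symm

end Pool.Agent.Helper77.OIP
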